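import Pool.Agent.H59.HR.Stm

/-! CS1: a curve through a point avoiding `δ = 0`. -/

set_option autoImplicit false
set_option linter.all false

open Polynomial

namespace HR

theorem CS1 : S_CS1 := by
  intro A _ _ _ _ ε δ hδ hT
  obtain ⟨s, g, hg, hfin⟩ := exists_finite_inj_algHom_of_fg ℂ A
  obtain ⟨x, hx⟩ := hT
  -- `s ≥ 1`
  have hs : 0 < s := by
    rcases Nat.eq_zero_or_pos s with h0 | h0
    · exfalso
      subst h0
      have h1 : Algebra.IsAlgebraic ℂ A := by
        have h2 : (algebraMap ℂ A).IsIntegral := by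
          have h3 : (algebraMap ℂ A) = (g : MvPolynomial (Fin 0) ℂ →+* A).comp MvPolynomial.C := by
            ext z
            simp [← MvPolynomial.algebraMap_eq]
          rw [h3]
          refine RingHom.IsIntegral.trans _ _ ?_ hfin.to_isIntegral
          exact RingHom.isIntegral_of_surjective _ (MvPolynomial.C_surjective _)
        have : Algebra.IsIntegral ℂ A := ⟨h2⟩
        infer_instance
      have h4 : AlgebraicIndependent ℂ x := hx
      have h5 : Transcendental ℂ (x 0) := h4.transcendental 0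
      exact h5 (h1.isAlgebraic _)
    · exact h0
  let i0 : Fin s := ⟨0, hs⟩
  letI : Algebra (MvPolynomial (Fin s) ℂ) A := (g : MvPolynomial (Fin s) ℂ →+* A).toAlgebra
  have hmap : ∀ p : MvPolynomial (Fin s) ℂ, algebraMap (MvPolynomial (Fin s) ℂ) A p = g p :=
    fun p => rfl
  haveI : Module.Finite (MvPolynomial (Fin s) ℂ) A := hfin
  haveI : FaithfulSMul (MvPolynomial (Fin s) ℂ) A :=
    (faithfulSMul_iff_algebraMap_injective _ _).2 hg
  -- a multiple of `δ` in `ℂ[z]`
  obtain ⟨N, hN0, hN⟩ : ∃ N : MvPolynomial (Fin s) ℂ, N ≠ 0 ∧ δ ∣ g N :=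
    (Algebra.IsAlgebraic.isAlgebraic (R := MvPolynomial (Fin s) ℂ) δ).exists_nonzero_dvd
      (mem_nonZeroDivisors_of_ne_zero hδ)
  -- the image of the point
  let z0 : Fin s → ℂ := fun i => ε (g (MvPolynomial.X i))
  have hz0 : ∀ p : MvPolynomial (Fin s) ℂ, ε (g p) = MvPolynomial.eval z0 p := by
    intro p
    have : (ε.comp g) = MvPolynomial.aeval z0 := by
      apply MvPolynomial.algHom_ext
      intro i
      simp [z0]
    have h2 := DFunLike.congr_fun this p
    simpa using h2
  -- a point with `N ≠ 0`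
  obtain ⟨z1, hz1⟩ : ∃ z1 : Fin s → ℂ, MvPolynomial.eval z1
      (N * (MvPolynomial.X i0 - MvPolynomial.C (z0 i0))) ≠ 0 := by
    by_contra hcon
    push Not at hcon
    have h1 : N * (MvPolynomial.X i0 - MvPolynomial.C (z0 i0)) = 0 := by
      apply MvPolynomial.funext
      intro z
      rw [hcon z, map_zero]
    rcases mul_eq_zero.1 h1 with h2 | h2
    · exact hN0 h2
    · have h3 := congrArg (MvPolynomial.eval (fun _ => z0 i0 + 1)) h2
      simp at h3
  rw [map_mul, map_sub, MvPolynomial.eval_X, MvPolynomial.eval_C] at hz1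
  have hzN : MvPolynomial.eval z1 N ≠ 0 := left_ne_zero_of_mul hz1
  have hzd : z1 i0 - z0 i0 ≠ 0 := right_ne_zero_of_mul hz1
  -- the line
  let lam : MvPolynomial (Fin s) ℂ →ₐ[ℂ] ℂ[X] :=
    MvPolynomial.aeval (fun i => C (z0 i) + X * C (z1 i - z0 i))
  have hlam : Function.Surjective lam := by
    intro p
    induction p using Polynomial.induction_on' with
    | add p q hp hq =>
      obtain ⟨a, ha⟩ := hp
      obtain ⟨b, hb⟩ := hq
      exact ⟨a + b, by rw [map_add, ha, hb]⟩
    | monomial n c =>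
      refine ⟨MvPolynomial.C c * (MvPolynomial.C ((z1 i0 - z0 i0)⁻¹) *
        (MvPolynomial.X i0 - MvPolynomial.C (z0 i0))) ^ n, ?_⟩
      have h1 : lam (MvPolynomial.C ((z1 i0 - z0 i0)⁻¹) *
        (MvPolynomial.X i0 - MvPolynomial.C (z0 i0))) = X := by
        simp only [lam, map_mul, map_sub, MvPolynomial.aeval_X, MvPolynomial.algHom_C,
          Polynomial.algebraMap_apply, Algebra.algebraMap_self, RingHom.id_apply]
        rw [add_sub_cancel_left, mul_comm X, ← mul_assoc, ← C_sub, ← C_mul,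
          inv_mul_cancel₀ hzd, C_1, one_mul]
      rw [map_mul, map_pow, h1, MvPolynomial.algHom_C]
      rw [← Polynomial.C_mul_X_pow_eq_monomial]
      rfl
  have hev0 : ∀ p, Polynomial.eval 0 (lam p) = MvPolynomial.eval z0 p := by
    intro p
    have : ((Polynomial.aeval (0 : ℂ)).comp lam) = MvPolynomial.aeval z0 := by
      apply MvPolynomial.algHom_ext
      intro i
      simp [lam]
    have h2 := DFunLike.congr_fun this p
    simpa [Polynomial.aeval_def] using h2
  have hev1 : ∀ p, Polynomial.eval 1 (lam p) = MvPolynomial.eval z1 p := by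
    intro p
    have : ((Polynomial.aeval (1 : ℂ)).comp lam) = MvPolynomial.aeval z1 := by
      apply MvPolynomial.algHom_ext
      intro i
      simp [lam]
    have h2 := DFunLike.congr_fun this p
    simpa [Polynomial.aeval_def] using h2
  let P : Ideal (MvPolynomial (Fin s) ℂ) := RingHom.ker lam
  haveI hP : P.IsPrime := RingHom.ker_isPrime _
  haveI hM : (RingHom.ker ε).IsPrime := RingHom.ker_isPrime _
  have hle : P ≤ (RingHom.ker ε).under (MvPolynomial (Fin s) ℂ) := by
    intro p hp
    have hp' : lam p = 0 := hp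
    show ε (g p) = 0
    rw [hz0, ← hev0, hp', Polynomial.eval_zero]
  obtain ⟨Q, hQM, hQ, hQP⟩ := Ideal.exists_ideal_le_liesOver_of_le (p := P)
    (q := (RingHom.ker ε).under (MvPolynomial (Fin s) ℂ)) (RingHom.ker ε) hle
  have hQP' : ∀ p : MvPolynomial (Fin s) ℂ, lam p = 0 ↔ g p ∈ Q := by
    intro p
    have h1 : p ∈ P ↔ p ∈ Q.under (MvPolynomial (Fin s) ℂ) := by rw [← hQP.over]
    exact h1
  refine ⟨Q, hQ, hQM, fun hδQ => ?_, ?_⟩
  · obtain ⟨a, ha⟩ := hN
    have h1 : g N ∈ Q := by rw [ha]; exact Q.mul_mem_right a hδQ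
    have h2 := (hQP' N).2 h1
    apply hzN
    rw [← hev1, h2, Polynomial.eval_zero]
  · -- the parametrisation
    let π : MvPolynomial (Fin s) ℂ →ₐ[ℂ] (A ⧸ Q) := (Ideal.Quotient.mkₐ ℂ Q).comp g
    have hπ : ∀ p, lam p = 0 ↔ π p = 0 := by
      intro p
      rw [hQP' p]
      exact (Ideal.Quotient.eq_zero_iff_mem).symm
    let φ : ℂ[X] →ₐ[ℂ] (A ⧸ Q) :=
      (Ideal.Quotient.liftₐ (RingHom.ker lam) π (fun a ha => (hπ a).1 ha)).comp
        (Ideal.quotientKerAlgEquivOfSurjective hlam).symm.toAlgHom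
    have hφ : ∀ p, φ (lam p) = π p := by
      intro p
      have h1 : (Ideal.quotientKerAlgEquivOfSurjective hlam).symm (lam p) =
          Ideal.Quotient.mk _ p := by
        rw [AlgEquiv.symm_apply_eq]
        rfl
      show (Ideal.Quotient.liftₐ (RingHom.ker lam) π (fun a ha => (hπ a).1 ha))
        ((Ideal.quotientKerAlgEquivOfSurjective hlam).symm (lam p)) = π p
      rw [h1]
      rfl
    refine ⟨φ, ?_, ?_⟩
    · rw [injective_iff_map_eq_zero]
      intro q hq
      obtain ⟨p, rfl⟩ := hlam q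
      rw [hφ] at hq
      exact (hπ p).2 hq
    · have h1 : (φ : ℂ[X] →+* (A ⧸ Q)).comp (lam : MvPolynomial (Fin s) ℂ →+* ℂ[X]) =
          (Ideal.Quotient.mk Q).comp (g : MvPolynomial (Fin s) ℂ →+* A) := by
        ext p
        · simp
          exact φ.commutes p
        · exact hφ _
      have h2 : ((Ideal.Quotient.mk Q).comp (g : MvPolynomial (Fin s) ℂ →+* A)).Finite :=
        RingHom.Finite.comp (RingHom.Finite.of_surjective _ Ideal.Quotient.mk_surjective) hfin
      rw [← h1] at h2
      exact RingHom.Finite.of_comp_finite h2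

end HR
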