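import Pool.Agent.H59.HR.Stm

/-! CS2: the normalisation of an affine curve at a point. -/

set_option autoImplicit false
set_option linter.all false

open Polynomial nonZeroDivisors

namespace HR

attribute [local instance] FractionRing.liftAlgebra

theorem cs2_aux (B V : Type) [CommRing B] [Algebra ℂ B] (n : Ideal B) [n.IsPrime]
    [CommRing V] [Algebra B V] [Algebra ℂ V] [IsScalarTower ℂ B V] [IsLocalization.AtPrime V n]
    [IsLocalRing V] (hB : ∀ b : B, ∃ z : ℂ, b - algebraMap ℂ B z ∈ n) :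
    ∀ v : V, ∃ z : ℂ, v - algebraMap ℂ V z ∈ IsLocalRing.maximalIdeal V := by
  have hVn : ∀ b : B, algebraMap B V b ∈ IsLocalRing.maximalIdeal V ↔ b ∈ n :=
    fun b => IsLocalization.AtPrime.to_map_mem_maximal_iff V n b
  have hCV : ∀ z : ℂ, algebraMap ℂ V z = algebraMap B V (algebraMap ℂ B z) :=
    fun z => IsScalarTower.algebraMap_apply ℂ B V z
  intro v
  obtain ⟨b, s, rfl⟩ := IsLocalization.exists_mk'_eq n.primeCompl v
  obtain ⟨z1, h1⟩ := hB b
  obtain ⟨z2, h2⟩ := hB s
  have hs : (s : B) ∉ n := s.2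
  have hz2 : z2 ≠ 0 := by
    rintro rfl
    apply hs
    simpa using h2
  refine ⟨z1 / z2, ?_⟩
  have h3 : b - algebraMap ℂ B (z1 / z2) * s ∈ n := by
    have h4 : b - algebraMap ℂ B (z1 / z2) * s = (b - algebraMap ℂ B z1) -
        algebraMap ℂ B (z1 / z2) * (s - algebraMap ℂ B z2) := by
      have h5 : algebraMap ℂ B z1 = algebraMap ℂ B (z1 / z2) * algebraMap ℂ B z2 := by
        rw [← map_mul, div_mul_cancel₀ _ hz2]
      rw [h5]
      ring
    rw [h4]
    exact n.sub_mem h1 (n.mul_mem_left _ h2)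
  have h6 : (IsLocalization.mk' V b s - algebraMap ℂ V (z1 / z2)) * algebraMap B V s =
      algebraMap B V (b - algebraMap ℂ B (z1 / z2) * s) := by
    rw [sub_mul, IsLocalization.mk'_spec, hCV, map_sub, map_mul]
  have h7 := (hVn _).2 h3
  rw [← h6] at h7
  rcases (IsLocalRing.maximalIdeal.isMaximal V).isPrime.mem_or_mem h7 with h8 | h8
  · exact h8
  · exact absurd ((hVn _).1 h8) hs

theorem CS2 : S_CS2 := by
  intro A _ _ _ ε φ hφ hfin
  letI : Algebra ℂ[X] A := (φ : ℂ[X] →+* A).toAlgebra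
  have hφA : ∀ p : ℂ[X], algebraMap ℂ[X] A p = φ p := fun p => rfl
  haveI : IsScalarTower ℂ ℂ[X] A := IsScalarTower.of_algebraMap_eq (fun z => (φ.commutes z).symm)
  haveI : Module.Finite ℂ[X] A := hfin
  haveI : FaithfulSMul ℂ[X] A := (faithfulSMul_iff_algebraMap_injective _ _).2 hφ
  let K := FractionRing A
  haveI : FiniteDimensional (FractionRing ℂ[X]) K :=
    Module.Finite.of_isLocalization ℂ[X] A ℂ[X]⁰
  haveI : CharZero (FractionRing ℂ[X]) :=
    charZero_of_injective_algebraMap (IsFractionRing.injective ℂ[X] (FractionRing ℂ[X]))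
  let B := integralClosure ℂ[X] K
  haveI : IsDedekindDomain B := inferInstance
  have hint : ∀ a : A, algebraMap A K a ∈ B := by
    intro a
    have h1 : IsIntegral ℂ[X] a := Algebra.IsIntegral.isIntegral a
    exact h1.map (IsScalarTower.toAlgHom ℂ[X] A K)
  let ψ0 : A →ₐ[ℂ[X]] B := (IsScalarTower.toAlgHom ℂ[X] A K).codRestrict B hint
  have hψ0 : Function.Injective ψ0 := by
    intro a b hab
    have h1 := congrArg (fun x : B => (x : K)) hab
    exact IsFractionRing.injective A K h1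
  letI : Algebra A B := (ψ0 : A →+* B).toAlgebra
  haveI : IsScalarTower ℂ[X] A B := IsScalarTower.of_algebraMap_eq (fun z => (ψ0.commutes z).symm)
  haveI : Algebra.IsIntegral ℂ[X] B := inferInstance
  haveI : Algebra.IsIntegral A B := Algebra.IsIntegral.tower_top ℂ[X]
  haveI : FaithfulSMul A B := (faithfulSMul_iff_algebraMap_injective _ _).2 hψ0
  haveI hmax : (RingHom.ker ε).IsMaximal :=
    RingHom.ker_isMaximal_of_surjective ε (fun z => ⟨algebraMap ℂ A z, by simp⟩)
  obtain ⟨n, hn, hnε⟩ := Ideal.exists_maximal_ideal_liesOver_of_isIntegral (S := B) (RingHom.ker ε)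
  have hmem : ∀ a : A, ε a = 0 ↔ ψ0 a ∈ n := by
    intro a
    have h1 : a ∈ RingHom.ker ε ↔ a ∈ n.under A := by rw [← hnε.over]
    exact h1
  haveI := hn.isPrime
  let x0 : ℂ := ε (φ X)
  have hx0 : algebraMap ℂ[X] B (X - C x0) ∈ n := by
    have h1 : ψ0 (φ (X - C x0)) ∈ n := by
      rw [← hmem, map_sub, map_sub]
      have h2 : φ (C x0) = algebraMap ℂ A x0 := φ.commutes x0
      rw [h2, AlgHom.commutes]
      simp [x0]
    have h3 : algebraMap ℂ[X] B (X - C x0) = ψ0 (φ (X - C x0)) := (ψ0.commutes _).symm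
    rw [h3]
    exact h1
  have hinjB : Function.Injective (algebraMap ℂ[X] B) := FaithfulSMul.algebraMap_injective _ _
  have hn0 : n ≠ ⊥ := by
    intro h
    rw [h, Ideal.mem_bot, map_eq_zero_iff _ hinjB] at hx0
    exact X_sub_C_ne_zero x0 hx0
  let V := Localization.AtPrime n
  haveI : IsDiscreteValuationRing V :=
    IsLocalization.AtPrime.isDiscreteValuationRing_of_dedekind_domain B hn0 V
  let ψ : A →ₐ[ℂ] V := (IsScalarTower.toAlgHom ℂ B V).comp (ψ0.restrictScalars ℂ)
  have hBV : Function.Injective (algebraMap B V) :=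
    IsLocalization.injective V n.primeCompl_le_nonZeroDivisors
  have hVn : ∀ b : B, algebraMap B V b ∈ IsLocalRing.maximalIdeal V ↔ b ∈ n :=
    fun b => IsLocalization.AtPrime.to_map_mem_maximal_iff V n b
  have hCV : ∀ z : ℂ, algebraMap ℂ V z = algebraMap B V (algebraMap ℂ B z) :=
    fun z => IsScalarTower.algebraMap_apply ℂ B V z
  have hCB : ∀ z : ℂ, algebraMap ℂ B z = algebraMap ℂ[X] B (C z) :=
    fun z => IsScalarTower.algebraMap_apply ℂ ℂ[X] B z
  have hcomp : (algebraMap ℂ (B ⧸ n)).comp (Polynomial.evalRingHom x0) =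
      (Ideal.Quotient.mk n).comp (algebraMap ℂ[X] B) := by
    apply Polynomial.ringHom_ext
    · intro z
      simp only [RingHom.comp_apply, Polynomial.coe_evalRingHom, Polynomial.eval_C]
      rw [← hCB]
      rfl
    · simp only [RingHom.comp_apply, Polynomial.coe_evalRingHom, Polynomial.eval_X]
      have h1 : Ideal.Quotient.mk n (algebraMap ℂ[X] B (X - C x0)) = 0 :=
        Ideal.Quotient.eq_zero_iff_mem.2 hx0
      rw [map_sub, map_sub, sub_eq_zero, ← hCB] at h1
      rw [h1]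
      rfl
  have hquot : Algebra.IsIntegral ℂ (B ⧸ n) := by
    refine ⟨fun y => ?_⟩
    obtain ⟨b, rfl⟩ := Ideal.Quotient.mk_surjective y
    obtain ⟨p, hp, hpb⟩ := Algebra.IsIntegral.isIntegral (R := ℂ[X]) b
    refine ⟨p.map (Polynomial.evalRingHom x0), hp.map _, ?_⟩
    rw [Polynomial.eval₂_map, hcomp, ← Polynomial.hom_eval₂, hpb, map_zero]
  have hB : ∀ b : B, ∃ z : ℂ, b - algebraMap ℂ B z ∈ n := by
    intro b
    obtain ⟨z, hz⟩ := (IsAlgClosed.algebraMap_bijective_of_isIntegral (k := ℂ) (K := B ⧸ n)).2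
      (Ideal.Quotient.mk n b)
    refine ⟨z, ?_⟩
    rw [← Ideal.Quotient.eq_zero_iff_mem, map_sub, ← hz]
    exact sub_self _
  refine ⟨V, inferInstance, inferInstance, inferInstance, inferInstance, ψ, ?_, ?_, ?_⟩
  · exact hBV.comp hψ0
  · exact cs2_aux B V n hB
  · intro a
    have h1 : ψ a - algebraMap ℂ V (ε a) = algebraMap B V (ψ0 (a - algebraMap ℂ A (ε a))) := by
      have h2 : ψ0 (algebraMap ℂ A (ε a)) = algebraMap ℂ B (ε a) :=
        (ψ0.restrictScalars ℂ).commutes (ε a)
      rw [map_sub, map_sub, h2, ← hCV]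
      rfl
    rw [h1, hVn, ← hmem]
    simp

end HR
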